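import Pool.Agent.GT.StmtsA

/-!
# Squad GT, row A_DHA: the density Hales-Jewett theorem, assembly
-/

open Finset

namespace Pool.Agent.GT.H47

/-- **A_DHA**. -/
theorem a_dha (hMdh : MdhStmt) (hFnd : FndStmt) (hPrt : PrtStmt) (hPar : ParStmt)
    (hCrt : CrtStmt) : DhaStmt := by
  intro k hk
  induction k, hk using Nat.le_induction with
  | base =>
    intro δ hδ
    refine ⟨1, fun ι _ hι A hA => ?_⟩
    have hpos : 0 < (A.card : ℝ) := by
      refine lt_of_lt_of_le ?_ hA
      simpa using hδ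
    obtain ⟨x, hx⟩ := Finset.card_pos.1 (by exact_mod_cast hpos)
    obtain ⟨i⟩ : Nonempty ι := Fintype.card_pos_iff.1 (by omega)
    refine ⟨fun _ => none, ⟨i, rfl⟩, fun a => ?_⟩
    have : lp (fun _ : ι => (none : Option (Fin 1))) a = x := Subsingleton.elim _ _
    rw [this]
    exact hx
  | succ k hk ih =>
    have hM : MDHJ k := hMdh k hk ih
    exact hCrt k hk (hPar k (hPrt k (hFnd k hk hM))) ih

end Pool.Agent.GT.H47
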