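import Pool.Agent.GT.StmtsA

/-!
# Squad GT, row A_PAR: the partition lemma for intersections of insensitive sets
-/

open Finset

namespace Pool.Agent.GT.H47

theorem eqv_sp {ι η : Type} {k : ℕ} {a : Fin k} (f : ι → Fin (k + 1) ⊕ η) {x y : η → Fin (k + 1)}
    (h : Eqv a x y) : Eqv a (sp f x) (sp f y) := by
  intro i
  unfold sp
  rcases f i with c | e
  · exact Or.inl rfl
  · exact h e

/-- the words on `ι ≃ α ⊕ κ` are the pairs of words -/
def wordEquiv {ι α κ A : Type} (e : ι ≃ α ⊕ κ) : ((κ → A) × (α → A)) ≃ (ι → A) where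
  toFun p := fun i => Sum.elim p.2 p.1 (e i)
  invFun x := (fun j => x (e.symm (Sum.inr j)), fun t => x (e.symm (Sum.inl t)))
  left_inv p := by
    ext j <;> simp
  right_inv x := by
    funext i
    rcases h : e i with t | j
    · have : i = e.symm (Sum.inl t) := by rw [← h, Equiv.symm_apply_apply]
      simp [this]
    · have : i = e.symm (Sum.inr j) := by rw [← h, Equiv.symm_apply_apply]
      simp [this]

theorem par_empty {ι : Type} [Fintype ι] {k m : ℕ} (hm : m ≤ Fintype.card ι)
    (φ : (ι → Fin (k + 1)) → ℝ)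
    (h : ∀ f : ι → Fin (k + 1) ⊕ Fin m, IsSub f → ∑ y, φ (sp f y) ≤ 0)
    (E : Finset (ι → Fin (k + 1))) (hE : ∀ x, x ∈ E) : ∑ x ∈ E, φ x ≤ 0 := by
  classical
  have hE' : E = univ := Finset.eq_univ_of_forall hE
  obtain ⟨e⟩ : Nonempty (ι ≃ Fin m ⊕ Fin (Fintype.card ι - m)) := by
    refine ⟨Fintype.equivOfCardEq ?_⟩
    rw [Fintype.card_sum, Fintype.card_fin, Fintype.card_fin]
    omega
  rw [hE', ← Equiv.sum_comp (wordEquiv e) φ, Fintype.sum_prod_type]
  refine Finset.sum_nonpos fun z _ => ?_
  refine le_trans (le_of_eq ?_) (h (fun i => Sum.elim (fun t => Sum.inr t)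
    (fun j => Sum.inl (z j)) (e i)) ?_)
  · refine Finset.sum_congr rfl fun y _ => ?_
    congr 1
    funext i
    change Sum.elim y z (e i) = Sum.elim id y
      (Sum.elim (fun t => Sum.inr t) (fun j => Sum.inl (z j)) (e i))
    rcases e i with t | j <;> rfl
  · intro t
    refine ⟨e.symm (Sum.inl t), ?_⟩
    simp

/-- **A_PAR**. -/
theorem a_par : ParStmt := by
  intro k hPT S
  classical
  induction S using Finset.induction_on with
  | empty =>
    intro m η hη
    refine ⟨m, fun ι _ hm φ _ h D E _ hE => ?_⟩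
    have h0 : ∑ x ∈ E, φ x ≤ 0 := by
      refine par_empty hm φ h E fun x => ?_
      rw [hE]
      intro a ha
      exact absurd ha (Finset.notMem_empty a)
    refine h0.trans ?_
    positivity
  | insert a S haS ih =>
    intro m η hη
    obtain ⟨m₁, hm₁⟩ := ih m (η / 2) (by positivity)
    obtain ⟨n, hn⟩ := hPT a m₁ (η / 2) (by positivity)
    refine ⟨n, fun ι _ hι φ hφ h D E hD hE => ?_⟩
    set ES : Finset (ι → Fin (k + 1)) := univ.filter fun x => ∀ b ∈ S, x ∈ D b with hES
    set φ' : (ι → Fin (k + 1)) → ℝ := fun x => (if x ∈ ES then φ x else 0) - η / 2 with hφ'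
    have hle : ∀ x, φ' x ≤ 1 := by
      intro x
      simp only [hφ']
      split_ifs
      · linarith [hφ x]
      · linarith
    have hsub : ∀ f : ι → Fin (k + 1) ⊕ Fin m₁, IsSub f → ∑ y, φ' (sp f y) ≤ 0 := by
      intro f hf
      have h1 := hm₁ (Fin m₁) (by rw [Fintype.card_fin]) (fun y => φ (sp f y)) (fun y => hφ _)
        (fun g hg => by
          have h2 := h (cmp f g) (IsSub.cmp hf hg)
          simpa only [sp_cmp] using h2)
        (fun b => univ.filter fun y => sp f y ∈ D b) (univ.filter fun y => sp f y ∈ ES)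
        (fun b hb x y hxy hx => by
          rw [Finset.mem_filter] at hx ⊢
          exact ⟨Finset.mem_univ _, hD b (Finset.mem_insert_of_mem hb) _ _ (eqv_sp f hxy) hx.2⟩)
        (fun x => by
          simp only [Finset.mem_filter, Finset.mem_univ, true_and, hES])
      rw [Finset.sum_filter, Fintype.card_fin] at h1
      simp only [hφ', Finset.sum_sub_distrib]
      rw [Finset.sum_const, Finset.card_univ, Fintype.card_fun, Fintype.card_fin, Fintype.card_fin,
        nsmul_eq_mul]
      push_cast
      linarith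
    have h3 := hn ι hι φ' hle hsub (D a) (hD a (Finset.mem_insert_self a S))
    have h4 : ∑ x ∈ D a, φ' x = ∑ x ∈ E, φ x - η / 2 * (D a).card := by
      simp only [hφ', Finset.sum_sub_distrib, Finset.sum_const, nsmul_eq_mul]
      rw [← Finset.sum_filter]
      have h5 : (D a).filter (fun x => x ∈ ES) = E := by
        ext x
        rw [Finset.mem_filter, hE x, hES, Finset.mem_filter]
        constructor
        · rintro ⟨h6, -, h7⟩ b hb
          rcases Finset.mem_insert.1 hb with rfl | hb
          · exact h6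
          · exact h7 b hb
        · intro h6
          exact ⟨h6 a (Finset.mem_insert_self a S), Finset.mem_univ _,
            fun b hb => h6 b (Finset.mem_insert_of_mem hb)⟩
      rw [h5]
      ring
    have h6 : ((D a).card : ℝ) ≤ ((k : ℝ) + 1) ^ Fintype.card ι := by
      have h7 : (D a).card ≤ (k + 1) ^ Fintype.card ι := by
        refine (Finset.card_le_univ _).trans ?_
        rw [Fintype.card_fun, Fintype.card_fin]
      calc ((D a).card : ℝ) ≤ (((k + 1) ^ Fintype.card ι : ℕ) : ℝ) := by exact_mod_cast h7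
        _ = ((k : ℝ) + 1) ^ Fintype.card ι := by push_cast; rfl
    rw [h4] at h3
    have h8 : η / 2 * ((D a).card : ℝ) ≤ η / 2 * ((k : ℝ) + 1) ^ Fintype.card ι :=
      mul_le_mul_of_nonneg_left h6 (by positivity)
    linarith

end Pool.Agent.GT.H47
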